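import Pool.Agent.Helper89.Stz.Defs

/-!
# MP_65a63f_an, one frozen variable and `r` space variables: finite model, definitions

Time `z : ZMod A`, space `y : Fin r → ZMod A`, frequencies `(n ^ 2 + |m| ^ 2, m)` with `n ∈ I`,
`m ∈ [0, N)^r`.  Uses `Stz.ps`, `Stz.nrm`, `Stz.ft`, `Stz.wt`, `Stz.Th`, `Stz.sh`, `Stz.Good`.
-/

set_option autoImplicit false

namespace Stx

open Finset Stz

/-- `[0, N)^r` -/
abbrev IJ (r N : ℕ) : Finset (Fin r → ℕ) := Fintype.piFinset fun _ => range N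

/-- `[-H, H]^r` -/
noncomputable abbrev BZ (r H : ℕ) : Finset (Fin r → ℤ) := Fintype.piFinset fun _ => Icc (-(H : ℤ)) H

/-- `k · y` -/
def dt {A r : ℕ} (k : Fin r → ℤ) (y : Fin r → ZMod A) : ZMod A := ∑ l, (k l : ZMod A) * y l

/-- `|m| ^ 2` -/
def sqs {r : ℕ} (m : Fin r → ℤ) : ℤ := ∑ l, m l ^ 2

/-- two vectors are linearly independent -/
def Ind {r : ℕ} (k k' : Fin r → ℤ) : Prop := ∃ l l', k l * k' l' ≠ k l' * k' l

/-- the exponential sum -/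
noncomputable def F (A r : ℕ) [NeZero A] (I : Finset ℕ) (N : ℕ) (a : ℕ → (Fin r → ℕ) → ℂ)
    (z : ZMod A) (y : Fin r → ZMod A) : ℂ :=
  ∑ n ∈ I, ∑ m ∈ IJ r N, a n m *
    ps A (((n ^ 2 + ∑ l, m l ^ 2 : ℕ) : ZMod A) * z + ∑ l, (m l : ZMod A) * y l)

/-- squared `ℓ²` norm of the coefficients -/
noncomputable def nsq (r : ℕ) (I : Finset ℕ) (N : ℕ) (a : ℕ → (Fin r → ℕ) → ℂ) : ℝ :=
  ∑ n ∈ I, ∑ m ∈ IJ r N, ‖a n m‖ ^ 2

/-- normalised measure -/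
noncomputable def mu (A r : ℕ) (W : Finset (ZMod A × (Fin r → ZMod A))) : ℝ :=
  (W.card : ℝ) / (A : ℝ) ^ (r + 1)

/-- level set -/
noncomputable def lev (A r : ℕ) [NeZero A] (I : Finset ℕ) (N : ℕ) (a : ℕ → (Fin r → ℕ) → ℂ)
    (lam : ℝ) : Finset (ZMod A × (Fin r → ZMod A)) :=
  univ.filter fun w => lam ≤ ‖F A r I N a w.1 w.2‖

/-- time slice -/
noncomputable def sec (A r : ℕ) [NeZero A] (W : Finset (ZMod A × (Fin r → ZMod A)))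
    (z : ZMod A) : Finset (Fin r → ZMod A) := by
  classical exact univ.filter fun y => (z, y) ∈ W

/-- Fourier coefficient in space -/
noncomputable def fm (A r : ℕ) [NeZero A] (f : ZMod A → (Fin r → ZMod A) → ℂ) (m : Fin r → ℤ)
    (z : ZMod A) : ℂ := ((A : ℂ)⁻¹) ^ r * ∑ y, f z y * ps A (dt m y)

/-- energy -/
noncomputable def En (A r : ℕ) [NeZero A] (I : Finset ℕ) (N : ℕ)
    (f : ZMod A → (Fin r → ZMod A) → ℂ) : ℝ :=
  ∑ n ∈ I, ∑ m ∈ IJ r N,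
    ‖ft A (fm A r f fun l => (m l : ℤ)) ((n ^ 2 + ∑ l, m l ^ 2 : ℕ) : ZMod A)‖ ^ 2

/-- normalised periodic kernel, mean `2 ^ r` -/
noncomputable def Pd (A r : ℕ) [NeZero A] (N d : ℕ) (y : Fin r → ZMod A) : ℝ :=
  ∏ l, Th A N d (y l) / d

/-- pairs of points in the same time slice, weighted by `Pd` -/
noncomputable def Coll (A r : ℕ) [NeZero A] (N d : ℕ)
    (W : Finset (ZMod A × (Fin r → ZMod A))) : ℝ :=
  (A : ℝ)⁻¹ * ∑ z : ZMod A, ((A : ℝ)⁻¹) ^ (2 * r) * ∑ y ∈ sec A r W z, ∑ y' ∈ sec A r W z,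
    Pd A r N d (y' - y)

/-- pairs of points in the same time slice with two relations -/
noncomputable def Pr (A r : ℕ) [NeZero A] (W : Finset (ZMod A × (Fin r → ZMod A)))
    (k k' : Fin r → ℤ) (τ : ℝ) : ℝ := by
  classical exact
    (A : ℝ)⁻¹ * ∑ z : ZMod A, ((A : ℝ)⁻¹) ^ (2 * r) * ∑ y ∈ sec A r W z, ∑ y' ∈ sec A r W z,
      if nrm A (dt k (y' - y)) ≤ τ ∧ nrm A (dt k' (y' - y)) ≤ τ then 1 else 0

/-- `min (L, 1 / (2 ‖u‖))` -/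
noncomputable def mn (A : ℕ) (L : ℝ) (u : ZMod A) : ℝ := (max (1 / L) (2 * nrm A u))⁻¹

/-- Weyl sum majorant -/
noncomputable def U (A V L : ℕ) (u : ZMod A) : ℝ :=
  ∑ v ∈ Icc (-(V : ℤ)) V, mn A L ((v : ZMod A) * u)

/-- bound for level sets, valid for all shifts `b ≤ N ^ 2` -/
def LevB (r N : ℕ) (lam B : ℝ) : Prop :=
  ∀ (b A : ℕ) [NeZero A], (b : ℝ) ≤ (N : ℝ) ^ 2 → Good ((N + 1) ^ 60) A →
    ∀ a : ℕ → (Fin r → ℕ) → ℂ, nsq r (Icc (b + 1) (b + N)) N a ≤ 1 →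
    mu A r (lev A r (Icc (b + 1) (b + N)) N a lam) ≤ B

end Stx
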