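import Pool.Agent.Helper89.Stx.Crit
import Pool.Agent.Helper64.Stx.CritOne
import Pool.Agent.Helper65.Stx.Mid
import Pool.Agent.Helper62.Stx.LevReal
import Pool.Agent.Helper49.Stx.Y2
import Pool.Agent.Helper95.Stx.Real
import Pool.Agent.Helper63.Stx.Small
import Pool.Agent.Helper96.Stx.Fin
import Pool.Agent.Helper64.AS.Main

set_option autoImplicit false

namespace Stx

open Finset MeasureTheory Pool.Agent.Helper64.AS

/-- the critical level for every number of space variables -/
theorem crit_all (r : ℕ) (hr : 1 ≤ r) : S_crit r := by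
  have hlev : S_levr r := fun N' lam B hlam h b N hN hN' hb a ha =>
    lev_real r N' lam B hlam h b N hN hN' hb a ha
  rcases Nat.lt_or_ge r 2 with h | h
  · have h1 : r = 1 := by omega
    subst h1
    exact crit_real_of 1 hlev (l2_real 1) crit_one
  · exact crit_real_of r hlev (l2_real r) (crit_proof r h)

/-- the estimate below the decoupling exponent for shifts `|b₀| ≤ K N ^ 2` -/
theorem small_all (r : ℕ) (hr : 1 ≤ r) :
    ∃ p : ℝ, 2 + 2 / ((r : ℝ) + 1) < p ∧ p < 2 + 4 / ((r : ℝ) + 1) ∧ S_small r p := by
  have hlev : S_levr r := fun N' lam B hlam h b N hN hN' hb a ha =>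
    lev_real r N' lam B hlam h b N hN hN' hb a ha
  exact small r hr (crit_all r hr) (mid_real_of r hlev (l2_real r) (mid r hr)) m_LS

end Stx
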