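import Pool.Agent.Helper89.Stx.Crit2

set_option autoImplicit false

namespace Stx

open Finset Stz

theorem good_le (M A : ℕ) [NeZero A] (hM : 1 ≤ M) (h : Good M A) : M ≤ A :=
  Nat.le_of_dvd (Nat.pos_of_ne_zero (NeZero.ne A)) (h M hM le_rfl)

/-- Chebyshev -/
theorem mu_lev_le (A r N b : ℕ) [NeZero A] (hN : 1 ≤ N) (hb : (b : ℝ) ≤ (N : ℝ) ^ 2)
    (hA : Good ((N + 1) ^ 60) A) (a : ℕ → (Fin r → ℕ) → ℂ)
    (ha : nsq r (Icc (b + 1) (b + N)) N a ≤ 1) (lam : ℝ) (hlam : 0 < lam) :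
    lam ^ 2 * mu A r (lev A r (Icc (b + 1) (b + N)) N a lam) ≤ 1 := by
  classical
  have hAr : (0 : ℝ) < A := Nat.cast_pos.mpr (Nat.pos_of_ne_zero (NeZero.ne A))
  have h60 : (N + 1) ^ 60 ≤ A := good_le _ A (Nat.one_le_pow _ _ (by omega)) hA
  have hb' : b ≤ N ^ 2 := by exact_mod_cast hb
  have h4 : (N + 1) ^ 4 < A := by
    refine lt_of_lt_of_le ?_ h60
    exact Nat.pow_lt_pow_right (by omega) (by norm_num)
  have hNA : N ≤ A := by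
    have : N + 1 ≤ (N + 1) ^ 4 := Nat.le_self_pow (by norm_num) _
    omega
  have hI : ∀ n ∈ Icc (b + 1) (b + N), n ^ 2 < A := by
    intro n hn
    rw [mem_Icc] at hn
    have h1 : n ≤ (N + 1) ^ 2 := by nlinarith
    calc n ^ 2 ≤ ((N + 1) ^ 2) ^ 2 := Nat.pow_le_pow_left h1 2
      _ = (N + 1) ^ 4 := by ring
      _ < A := h4
  have h2 := l2zy A r N hNA (Icc (b + 1) (b + N)) hI a
  set L := lev A r (Icc (b + 1) (b + N)) N a lam with hL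
  have h3 : lam ^ 2 * (L.card : ℝ) ≤ ∑ z : ZMod A, ∑ y, ‖F A r (Icc (b + 1) (b + N)) N a z y‖ ^ 2 := by
    rw [← Fintype.sum_prod_type' (f := fun (z : ZMod A) (y : Fin r → ZMod A) =>
      ‖F A r (Icc (b + 1) (b + N)) N a z y‖ ^ 2)]
    calc lam ^ 2 * (L.card : ℝ) = ∑ _w ∈ L, lam ^ 2 := by rw [sum_const, nsmul_eq_mul]; ring
      _ ≤ ∑ w ∈ L, ‖F A r (Icc (b + 1) (b + N)) N a w.1 w.2‖ ^ 2 := by
          refine sum_le_sum fun w hw => ?_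
          rw [hL, lev, mem_filter] at hw
          exact pow_le_pow_left₀ hlam.le hw.2 2
      _ ≤ _ := sum_le_sum_of_subset_of_nonneg (subset_univ _) fun _ _ _ => by positivity
  calc lam ^ 2 * mu A r L = ((A : ℝ)⁻¹) ^ (r + 1) * (lam ^ 2 * (L.card : ℝ)) := by
        unfold mu
        rw [inv_pow]
        field_simp
    _ ≤ ((A : ℝ)⁻¹) ^ (r + 1) * ∑ z : ZMod A, ∑ y, ‖F A r (Icc (b + 1) (b + N)) N a z y‖ ^ 2 :=
        mul_le_mul_of_nonneg_left h3 (by positivity)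
    _ = nsq r (Icc (b + 1) (b + N)) N a := h2
    _ ≤ 1 := ha

/-- large `ζ` -/
theorem log_small (r : ℕ) : ∃ Z : ℝ, ∀ ζ : ℝ, Z ≤ ζ →
    (1 + (1000 * r + 74) * Real.log ζ) ^ 4 ≤ ζ := by
  have h1 : (fun x : ℝ => 1 + (1000 * (r : ℝ) + 74) * Real.log x) =o[Filter.atTop]
      (fun x : ℝ => x ^ (1 / 4 : ℝ)) := by
    refine Asymptotics.IsLittleO.add ?_ ?_
    · have := (tendsto_rpow_atTop (show (0 : ℝ) < 1 / 4 by norm_num))
      exact (Asymptotics.isLittleO_const_left.2 (Or.inr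
        (by simpa using tendsto_norm_atTop_atTop.comp this)))
    · exact (isLittleO_log_rpow_atTop (by norm_num)).const_mul_left _
  have h2 := h1.bound (show (0 : ℝ) < 1 by norm_num)
  obtain ⟨Z, hZ⟩ := Filter.eventually_atTop.1 h2
  refine ⟨max Z 1, fun ζ hζ => ?_⟩
  have h3 := hZ ζ ((le_max_left _ _).trans hζ)
  have hζ1 : 1 ≤ ζ := (le_max_right _ _).trans hζ
  have hlog : 0 ≤ Real.log ζ := Real.log_nonneg hζ1
  have h4 : 0 ≤ 1 + (1000 * (r : ℝ) + 74) * Real.log ζ := by positivity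
  rw [one_mul, Real.norm_of_nonneg h4, Real.norm_of_nonneg (by positivity)] at h3
  calc (1 + (1000 * (r : ℝ) + 74) * Real.log ζ) ^ 4 ≤ (ζ ^ (1 / 4 : ℝ)) ^ 4 :=
        pow_le_pow_left₀ h4 h3 4
    _ = ζ := by
        rw [← Real.rpow_natCast, ← Real.rpow_mul (by linarith)]
        norm_num

theorem ceilz {ζ : ℝ} (h : 2 ≤ ζ) (a : ℤ) (ha : 0 ≤ a) : (⌈ζ ^ a⌉₊ : ℝ) ≤ ζ ^ (a + 1) := by
  have h1 : (1 : ℝ) ≤ ζ := by linarith
  have h2 : (1 : ℝ) ≤ ζ ^ a := one_le_zpow₀ h1 ha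
  have h3 := Nat.ceil_lt_add_one (w_pos h1 a).le
  have h4 : ζ ^ (a + 1) = ζ ^ a * ζ := by rw [zpow_add₀ (by linarith), zpow_one]
  rw [h4]
  nlinarith

theorem floorz {ζ : ℝ} (h : 2 ≤ ζ) (a : ℤ) (ha : 0 ≤ a) : ζ ^ a ≤ (⌊ζ ^ (a + 1)⌋₊ : ℝ) := by
  have h1 : (1 : ℝ) ≤ ζ := by linarith
  have h2 : (1 : ℝ) ≤ ζ ^ a := one_le_zpow₀ h1 ha
  have h3 := Nat.lt_floor_add_one (ζ ^ (a + 1))
  have h4 : ζ ^ (a + 1) = ζ ^ a * ζ := by rw [zpow_add₀ (by linarith), zpow_one]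
  rw [h4] at h3 ⊢
  nlinarith

/-- The critical level for `N = ζ ^ (1000 r)`, `ζ` large. -/
theorem crit_core (r : ℕ) (hr : 2 ≤ r) : ∃ Z : ℝ, 1 ≤ Z ∧ ∀ (ζ : ℝ) (N b A : ℕ) [NeZero A],
    Z ≤ ζ → (N : ℝ) = ζ ^ (1000 * r : ℤ) → (N : ℝ) ^ (1 / (1000 * (r : ℝ))) = ζ →
    (b : ℝ) ≤ (N : ℝ) ^ 2 → Good ((N + 1) ^ 60) A →
    ∀ a : ℕ → (Fin r → ℕ) → ℂ, nsq r (Icc (b + 1) (b + N)) N a ≤ 1 → ∀ lam : ℝ, 0 < lam →
    ζ ^ (500 * r * (r + 1) - 2 : ℤ) ≤ lam ^ 2 →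
    lam ^ 2 * mu A r (lev A r (Icc (b + 1) (b + N)) N a lam) ≤ ζ ^ (-1 : ℤ) := by
  obtain ⟨C1, hC1, hmain⟩ := main_ineq r
  obtain ⟨CU, hCU, hU⟩ := U_sq
  obtain ⟨CL, hCL, hL4⟩ := L4 r (1 / (1000 * (r : ℝ))) (by positivity)
  obtain ⟨Z1, hZ1⟩ := supply (500 * r - 16) (by omega)
  obtain ⟨Z2, hZ2⟩ := log_small r
  refine ⟨max (max (max Z1 Z2) (max C1 CU)) (max (max CL 100) (4 * r + 2)), ?_, ?_⟩
  · exact le_max_of_le_right (le_max_of_le_left (le_max_of_le_right (by norm_num)))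
  intro ζ N b A _ hζ hN hNε hb hA a ha lam hlam hlam2
  have hζ1 : Z1 ≤ ζ := ((le_max_left _ _).trans ((le_max_left _ _).trans (le_max_left _ _))).trans hζ
  have hζ2 : Z2 ≤ ζ := ((le_max_right _ _).trans ((le_max_left _ _).trans (le_max_left _ _))).trans hζ
  have hζ3 : C1 ≤ ζ := ((le_max_left _ _).trans ((le_max_right _ _).trans (le_max_left _ _))).trans hζ
  have hζ4 : CU ≤ ζ := ((le_max_right _ _).trans ((le_max_right _ _).trans (le_max_left _ _))).trans hζ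
  have hζ5 : CL ≤ ζ := ((le_max_left _ _).trans ((le_max_left _ _).trans (le_max_right _ _))).trans hζ
  have hζ6 : (100 : ℝ) ≤ ζ :=
    ((le_max_right _ _).trans ((le_max_left _ _).trans (le_max_right _ _))).trans hζ
  have hζ7 : (4 * r + 2 : ℝ) ≤ ζ := ((le_max_right _ _).trans (le_max_right _ _)).trans hζ
  have h1 : (1 : ℝ) ≤ ζ := by linarith
  have h0 : (0 : ℝ) < ζ := by linarith
  have hr' : (2 : ℤ) ≤ r := by exact_mod_cast hr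
  have hAr : (0 : ℝ) < A := Nat.cast_pos.mpr (Nat.pos_of_ne_zero (NeZero.ne A))
  obtain ⟨Y, Q, hY1, hY2, hQ, hQc⟩ := hZ1 ζ hζ1
  have he : (((500 * r - 16 : ℕ) : ℤ)) = 500 * r - 16 := by omega
  rw [he] at hY1 hY2 hQc
  obtain ⟨H, hHd⟩ : ∃ H : ℕ, H = ⌈ζ ^ (35 : ℤ)⌉₊ := ⟨_, rfl⟩
  obtain ⟨J, hJd⟩ : ∃ J : ℕ, J = ⌊ζ ^ (963 * r - 36 + 1 : ℤ)⌋₊ := ⟨_, rfl⟩
  have hH1 : ζ ^ (35 : ℤ) ≤ H := by rw [hHd]; exact Nat.le_ceil _
  have hH2 : (H : ℝ) ≤ ζ ^ (36 : ℤ) := by rw [hHd]; exact ceilz (by linarith) 35 (by norm_num)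
  have hJ1 : ζ ^ (963 * r - 36 : ℤ) ≤ J := by
    rw [hJd]; exact floorz (by linarith) _ (by linarith)
  have hJ2 : (J : ℝ) ≤ ζ ^ (963 * r - 36 + 1 : ℤ) := by
    rw [hJd]; exact Nat.floor_le (w_pos h1 _).le
  have hNpos : (1 : ℝ) ≤ N := by rw [hN]; exact one_le_zpow₀ h1 (by positivity)
  have hN1 : 1 ≤ N := by exact_mod_cast hNpos
  have hH0 : 1 ≤ H := by
    have : (1 : ℝ) ≤ H := (one_le_zpow₀ h1 (by norm_num)).trans hH1
    exact_mod_cast this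
  have hJ0 : 1 ≤ J := by
    have : (1 : ℝ) ≤ J := (one_le_zpow₀ h1 (by linarith)).trans hJ1
    exact_mod_cast this
  have hJN : J ≤ N := by
    have : (J : ℝ) ≤ N := by
      rw [hN]; exact hJ2.trans (w_le h1 (by linarith))
    exact_mod_cast this
  have hQpos : (1 : ℝ) ≤ Q.card := (one_le_zpow₀ h1 (by linarith)).trans hQc
  have hQ0 : Q.Nonempty := by
    rw [← card_pos]
    have : 1 ≤ Q.card := by exact_mod_cast hQpos
    omega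
  have hYbig : (100 : ℝ) ≤ Y := by
    refine le_trans ?_ hY1
    calc (100 : ℝ) ≤ ζ := hζ6
      _ = ζ ^ (1 : ℤ) := (zpow_one ζ).symm
      _ ≤ _ := w_le h1 (by linarith)
  have hY3 : 100 ≤ Y := by exact_mod_cast hYbig
  -- the modulus
  have h60 : (N + 1) ^ 60 ≤ A := good_le _ A (Nat.one_le_pow _ _ (by omega)) hA
  have hA60 : (N : ℝ) ^ 60 ≤ A := by
    have e1 : ((N : ℝ) + 1) ^ 60 ≤ A := by exact_mod_cast h60
    refine le_trans ?_ e1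
    exact pow_le_pow_left₀ (by positivity) (by linarith) 60
  have hAζ : ζ ^ (60000 * r : ℤ) ≤ A := by
    refine le_trans (le_of_eq ?_) hA60
    rw [hN, w_pow]; congr 1; push_cast; ring
  have hb' : b ≤ N ^ 2 := by exact_mod_cast hb
  have hbN : ((b + N : ℕ) : ℝ) ≤ ζ ^ (2000 * r + 1 : ℤ) := by
    have e1 : ((b + N : ℕ) : ℝ) ≤ 2 * (N : ℝ) ^ 2 := by
      push_cast
      nlinarith
    refine e1.trans ?_
    rw [hN, w_pow]
    exact cw_le h1 (by linarith) (by push_cast; linarith)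
  have hbA16 : 16 * (b + N) ^ 2 < A := by
    have e1 : ((16 * (b + N) ^ 2 : ℕ) : ℝ) < A := by
      refine lt_of_lt_of_le ?_ hAζ
      calc ((16 * (b + N) ^ 2 : ℕ) : ℝ) = 16 * (((b + N : ℕ) : ℝ)) ^ 2 := by push_cast; ring
        _ ≤ 16 * (ζ ^ (2000 * r + 1 : ℤ)) ^ 2 := by gcongr
        _ = 16 * ζ ^ ((2000 * r + 1) * (2 : ℕ) : ℤ) := by rw [w_pow]
        _ ≤ ζ ^ (4000 * r + 3 : ℤ) := cw_le h1 (by linarith) (by push_cast; linarith)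
        _ < ζ ^ (60000 * r : ℤ) := zpow_lt_zpow_right₀ (by linarith) (by linarith)
    exact_mod_cast e1
  have h4N : 4 * N < A := by
    have e1 : ((4 * N : ℕ) : ℝ) < A := by
      refine lt_of_lt_of_le ?_ hAζ
      calc ((4 * N : ℕ) : ℝ) = 4 * ζ ^ (1000 * r : ℤ) := by push_cast; rw [hN]
        _ ≤ ζ ^ (1000 * r + 1 : ℤ) := cw_le h1 (by linarith) (by linarith)
        _ < ζ ^ (60000 * r : ℤ) := zpow_lt_zpow_right₀ (by linarith) (by linarith)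
    exact_mod_cast e1
  have hHJ : 8 * (N + 2 * H * J) < A := by
    have e1 : ((8 * (N + 2 * H * J) : ℕ) : ℝ) < A := by
      refine lt_of_lt_of_le ?_ hAζ
      have e2 : (J : ℝ) ≤ N := by exact_mod_cast hJN
      have e3 : (N : ℝ) + 2 * H * J ≤ 3 * (ζ ^ (36 : ℤ) * ζ ^ (1000 * r : ℤ)) := by
        rw [← hN]
        have e4 : (1 : ℝ) ≤ ζ ^ (36 : ℤ) := one_le_zpow₀ h1 (by norm_num)
        have e5 : (H : ℝ) * J ≤ ζ ^ (36 : ℤ) * N := mul_le_mul hH2 e2 (by positivity) (by positivity)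
        nlinarith
      calc ((8 * (N + 2 * H * J) : ℕ) : ℝ) = 8 * ((N : ℝ) + 2 * H * J) := by push_cast; ring
        _ ≤ 8 * (3 * (ζ ^ (36 : ℤ) * ζ ^ (1000 * r : ℤ))) := by linarith
        _ = 24 * ζ ^ (36 + 1000 * r : ℤ) := by rw [w_mul h1, ← mul_assoc]; norm_num
        _ ≤ ζ ^ (1000 * r + 37 : ℤ) := cw_le h1 (by linarith) (by linarith)
        _ < ζ ^ (60000 * r : ℤ) := zpow_lt_zpow_right₀ (by linarith) (by linarith)
    exact_mod_cast e1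
  have hdiv : ∀ d : ℕ, 1 ≤ d → d ≤ 16 * Y ^ 2 → d ∣ A := by
    intro d hd1 hd2
    refine hA d hd1 (hd2.trans ?_)
    have e1 : ((16 * Y ^ 2 : ℕ) : ℝ) ≤ N := by
      calc ((16 * Y ^ 2 : ℕ) : ℝ) = 4 * (2 * Y : ℝ) ^ 2 := by push_cast; ring
        _ ≤ 4 * (ζ ^ (500 * r - 16 : ℤ)) ^ 2 := by gcongr
        _ = 4 * ζ ^ ((500 * r - 16) * (2 : ℕ) : ℤ) := by rw [w_pow]
        _ ≤ ζ ^ (1000 * r : ℤ) := cw_le h1 (by linarith) (by push_cast; linarith)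
        _ = N := hN.symm
    have e2 : 16 * Y ^ 2 ≤ N := by exact_mod_cast e1
    refine e2.trans ?_
    calc N ≤ N + 1 := by omega
      _ ≤ (N + 1) ^ 60 := Nat.le_self_pow (by norm_num) _
  have hQI : ∀ n ∈ Icc (b + 1) (b + N), 2 * (Q.filter fun q => q ∣ n).card ≤ Q.card := by
    intro n hn
    rw [mem_Icc] at hn
    have e1 : (Q.filter fun q : ℕ => (q : ℤ) ∣ (n : ℤ)).card < 5 := by
      refine card_primes_lt Q Y (by omega) (fun q hq => ⟨(hQ q hq).1, (hQ q hq).2.1⟩) n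
        (by omega) 5 ?_
      have e2 : |((n : ℤ) : ℝ)| = (n : ℝ) := by simp
      rw [e2]
      calc (n : ℝ) ≤ ((b + N : ℕ) : ℝ) := by exact_mod_cast hn.2
        _ ≤ ζ ^ (2000 * r + 1 : ℤ) := hbN
        _ < ζ ^ ((500 * r - 16 - 1) * (5 : ℕ) : ℤ) :=
            zpow_lt_zpow_right₀ (by linarith) (by push_cast; linarith)
        _ = (ζ ^ (500 * r - 16 - 1 : ℤ)) ^ 5 := by rw [w_pow]
        _ ≤ (Y : ℝ) ^ 5 := pow_le_pow_left₀ (w_pos h1 _).le hY1 5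
    have e3 : (Q.filter fun q => q ∣ n) = Q.filter fun q : ℕ => (q : ℤ) ∣ (n : ℤ) := by
      refine filter_congr fun q _ => ?_
      exact Int.natCast_dvd_natCast.symm
    have e4 : 8 ≤ Q.card := by
      have : (8 : ℝ) ≤ Q.card := by
        refine le_trans ?_ hQc
        calc (8 : ℝ) ≤ ζ := by linarith
          _ = ζ ^ (1 : ℤ) := (zpow_one ζ).symm
          _ ≤ _ := w_le h1 (by linarith)
      exact_mod_cast this
    rw [e3]
    omega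
  have hND : 2 * N ≤ (H + 1) * Y ^ 2 := by
    have e1 : ((2 * N : ℕ) : ℝ) ≤ (((H + 1) * Y ^ 2 : ℕ) : ℝ) := by
      calc ((2 * N : ℕ) : ℝ) = 2 * ζ ^ (1000 * r : ℤ) := by push_cast; rw [hN]
        _ ≤ ζ ^ (35 + (500 * r - 16 - 1) * (2 : ℕ) : ℤ) :=
            cw_le h1 (by linarith) (by push_cast; linarith)
        _ = ζ ^ (35 : ℤ) * (ζ ^ (500 * r - 16 - 1 : ℤ)) ^ 2 := by rw [w_pow, w_mul h1]
        _ ≤ ((H : ℝ) + 1) * (Y : ℝ) ^ 2 := by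
            refine mul_le_mul (by linarith) (pow_le_pow_left₀ (w_pos h1 _).le hY1 2)
              (by positivity) (by positivity)
        _ = _ := by push_cast; ring
    exact_mod_cast e1
  have h3H : (3 * H : ℝ) ^ r ≤ ζ ^ (37 * r : ℤ) := by
    calc (3 * H : ℝ) ^ r ≤ (ζ ^ (37 : ℤ)) ^ r := by
          refine pow_le_pow_left₀ (by positivity) ?_ r
          calc (3 * H : ℝ) ≤ 3 * ζ ^ (36 : ℤ) := by linarith
            _ ≤ ζ ^ (37 : ℤ) := cw_le h1 (by linarith) (by norm_num)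
      _ = ζ ^ (37 * r : ℤ) := w_pow _ _
  have hτ : (3 * H : ℝ) ^ r / (Y ^ 2 : ℕ) ≤ 1 / (2 * J) := by
    have hJpos : (0 : ℝ) < J := by exact_mod_cast hJ0
    rw [div_le_div_iff₀ (by positivity) (by positivity), one_mul]
    calc (3 * H : ℝ) ^ r * (2 * J) ≤ ζ ^ (37 * r : ℤ) * (2 * ζ ^ (963 * r - 36 + 1 : ℤ)) := by
          refine mul_le_mul h3H (by linarith) (by positivity) (w_pos h1 _).le
      _ = 2 * ζ ^ (37 * r + (963 * r - 36 + 1) : ℤ) := by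
          rw [← w_mul h1 (37 * r : ℤ) (963 * r - 36 + 1)]; ring
      _ ≤ ζ ^ ((500 * r - 16 - 1) * (2 : ℕ) : ℤ) :=
          cw_le h1 (by linarith) (by push_cast; linarith)
      _ = (ζ ^ (500 * r - 16 - 1 : ℤ)) ^ 2 := by rw [w_pow]
      _ ≤ (Y : ℝ) ^ 2 := pow_le_pow_left₀ (w_pos h1 _).le hY1 2
      _ = _ := by push_cast; ring
  -- the Weyl majorant
  obtain ⟨V, hVd⟩ : ∃ V : ℕ, V = (4 * r + 2) * H ^ 2 * N := ⟨_, rfl⟩
  have hVr : (V : ℝ) ≤ ζ ^ (1000 * r + 73 : ℤ) := by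
    have e1 : (V : ℝ) = (4 * r + 2) * ((H : ℝ) ^ 2 * N) := by rw [hVd]; push_cast; ring
    rw [e1]
    calc (4 * r + 2) * ((H : ℝ) ^ 2 * N) ≤ (4 * r + 2) * ((ζ ^ (36 : ℤ)) ^ 2 * N) := by gcongr
      _ = (4 * r + 2) * ζ ^ (36 * (2 : ℕ) + 1000 * r : ℤ) := by rw [hN, w_pow, w_mul h1]
      _ ≤ _ := cw_le h1 hζ7 (by push_cast; linarith)
  have hV1 : 1 ≤ V := by
    rw [hVd]
    have e1 : 1 ≤ H ^ 2 := Nat.one_le_pow _ _ hH0
    nlinarith [Nat.mul_le_mul e1 hN1]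
  have hVN : ((V : ℝ) + N) ≤ ζ ^ (1000 * r + 74 : ℤ) := by
    have e1 : (N : ℝ) ≤ ζ ^ (1000 * r + 73 : ℤ) := by rw [hN]; exact w_le h1 (by linarith)
    calc ((V : ℝ) + N) ≤ 2 * ζ ^ (1000 * r + 73 : ℤ) := by linarith
      _ ≤ _ := cw_le h1 (by linarith) (by linarith)
  have hVA : 4 * V * N < A := by
    have e1 : ((4 * V * N : ℕ) : ℝ) < A := by
      refine lt_of_lt_of_le ?_ hAζ
      calc ((4 * V * N : ℕ) : ℝ) = 4 * ((V : ℝ) * N) := by push_cast; ring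
        _ ≤ 4 * (ζ ^ (1000 * r + 73 : ℤ) * ζ ^ (1000 * r : ℤ)) := by rw [hN]; gcongr
        _ = 4 * ζ ^ (1000 * r + 73 + 1000 * r : ℤ) := by rw [w_mul h1]
        _ ≤ ζ ^ (2000 * r + 74 : ℤ) := cw_le h1 (by linarith) (by linarith)
        _ < ζ ^ (60000 * r : ℤ) := zpow_lt_zpow_right₀ (by linarith) (by linarith)
    exact_mod_cast e1
  have hU2 : (A : ℝ)⁻¹ * ∑ u : ZMod A, U A V N u ^ 2 ≤ ζ ^ (2000 * r + 150 : ℤ) := by
    refine (hU A V N hN1 hV1 hVA).trans ?_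
    have e1 : (1 + Real.log ((V : ℝ) + N)) ^ 4 ≤ ζ := by
      refine le_trans ?_ (hZ2 ζ hζ2)
      have e2 : (1 : ℝ) ≤ (V : ℝ) + N := by
        have : (0 : ℝ) ≤ V := Nat.cast_nonneg _
        linarith
      have e3 : Real.log ((V : ℝ) + N) ≤ (1000 * r + 74) * Real.log ζ := by
        calc Real.log ((V : ℝ) + N) ≤ Real.log (ζ ^ (1000 * r + 74 : ℤ)) :=
              Real.log_le_log (by linarith) hVN
          _ = _ := by rw [Real.log_zpow]; push_cast; ring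
      have e4 : 0 ≤ Real.log ((V : ℝ) + N) := Real.log_nonneg e2
      exact pow_le_pow_left₀ (by linarith) (by linarith) 4
    have e5 : ((V : ℝ) + N) ^ 2 ≤ ζ ^ (2000 * r + 148 : ℤ) := by
      calc ((V : ℝ) + N) ^ 2 ≤ (ζ ^ (1000 * r + 74 : ℤ)) ^ 2 := by gcongr
        _ = ζ ^ ((1000 * r + 74) * (2 : ℕ) : ℤ) := w_pow _ _
        _ ≤ _ := w_le h1 (by push_cast; linarith)
    calc CU * (1 + Real.log ((V : ℝ) + N)) ^ 4 * ((V : ℝ) + N) ^ 2 ≤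
          ζ * ζ * ζ ^ (2000 * r + 148 : ℤ) := by gcongr
      _ = ζ ^ (2000 * r + 150 : ℤ) := by
          rw [show (2000 * r + 150 : ℤ) = 2000 * r + 148 + 1 + 1 by ring,
            zpow_add_one₀ h0.ne', zpow_add_one₀ h0.ne']
          ring
  have hB : (A : ℝ)⁻¹ * ∑ u : ZMod A, U A V N u ^ (3 / 2 : ℝ) ≤ ζ ^ (1500 * r + 151 : ℤ) := by
    refine (U_three_half A V N (ζ ^ (500 * r + 50 : ℤ)) _ (w_pos h1 _) hU2).trans ?_
    rw [w_pow, w_div h1]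
    calc ζ ^ ((500 * r + 50) * (3 : ℕ) : ℤ) + ζ ^ (2000 * r + 150 - (500 * r + 50) : ℤ) ≤
          ζ ^ (1500 * r + 150 : ℤ) + ζ ^ (1500 * r + 150 : ℤ) :=
          add_le_add (w_le h1 (by push_cast; linarith)) (w_le h1 (by linarith))
      _ = 2 * ζ ^ (1500 * r + 150 : ℤ) := by ring
      _ ≤ _ := cw_le h1 (by linarith) (by linarith)
  -- mass
  have hgg : (A : ℝ)⁻¹ * ∑ z : ZMod A, gg A r (Icc (b + 1) (b + N)) N a z ^ 2 ≤ ζ ^ (2 : ℤ) := by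
    have e1 := hL4 N b A hN1 hb hbA16 a
    rw [hNε] at e1
    have e2 : 0 ≤ nsq r (Icc (b + 1) (b + N)) N a := by unfold nsq; positivity
    have e3 : nsq r (Icc (b + 1) (b + N)) N a ^ 2 ≤ 1 := pow_le_one₀ e2 ha
    refine e1.trans ?_
    calc CL * ζ * nsq r (Icc (b + 1) (b + N)) N a ^ 2 ≤ ζ * ζ * 1 := by gcongr
      _ = ζ ^ (2 : ℤ) := by rw [mul_one]; exact (zpow_two ζ).symm
  set I := Icc (b + 1) (b + N) with hI
  set W := lev A r I N a lam with hW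
  have hWlam : ∀ w ∈ W, lam ≤ ‖F A r I N a w.1 w.2‖ := fun w hw => (mem_filter.1 hw).2
  classical
  set W1 := W.filter fun w => gg A r I N a w.1 ≤ ζ ^ (4 : ℤ) with hW1
  set W2 := W.filter fun w => ¬ gg A r I N a w.1 ≤ ζ ^ (4 : ℤ) with hW2
  have hsum : mu A r W = mu A r W1 + mu A r W2 := by
    unfold mu
    rw [← add_div, ← Nat.cast_add, hW1, hW2, card_filter_add_card_filter_not]
  have hlam2pos : 0 < lam ^ 2 := by positivity
  -- times with large mass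
  have hmu2 : lam ^ 2 * mu A r W2 ≤ ζ ^ (-2 : ℤ) := by
    have e1 := mu_large A r I N a W2 lam hlam.le (fun w hw => hWlam w (mem_filter.1 hw).1)
      (ζ ^ (4 : ℤ)) (ζ ^ (2 : ℤ)) (w_pos h1 _) hgg
      (fun w hw => (not_le.1 (mem_filter.1 hw).2).le)
    rw [w_div h1] at e1
    exact e1
  -- times with small mass
  have hmu1 : lam ^ 2 * mu A r W1 ≤ ζ ^ (-2 : ℤ) := by
    obtain ⟨ρ, hρd⟩ : ∃ ρ : ℝ, ρ = ζ ^ (4 : ℤ) / lam ^ 2 := ⟨_, rfl⟩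
    have hρ0 : 0 ≤ ρ := by rw [hρd]; positivity
    have hW1lam : ∀ w ∈ W1, lam ≤ ‖F A r I N a w.1 w.2‖ :=
      fun w hw => hWlam w (mem_filter.1 hw).1
    have hρ : ∀ z, ((A : ℝ)⁻¹) ^ r * ((sec A r W1 z).card : ℝ) ≤ ρ := by
      intro z
      rw [hρd, le_div_iff₀ hlam2pos]
      by_cases h : (sec A r W1 z).Nonempty
      · obtain ⟨y, hy⟩ := h
        have e1 := (mem_filter.1 ((mem_sc A r W1 z y).1 hy)).2
        have e2 := sec_le A r I N a W1 lam hlam.le hW1lam z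
        simp only at e1
        linarith
      · rw [not_nonempty_iff_eq_empty.1 h]
        simp only [card_empty, Nat.cast_zero, mul_zero, zero_mul]
        exact (w_pos h1 _).le
    have hρ' : ρ ≤ ζ ^ (6 - 500 * r * (r + 1) : ℤ) := by
      rw [hρd, div_le_iff₀ hlam2pos]
      calc ζ ^ (4 : ℤ) = ζ ^ (6 - 500 * r * (r + 1) : ℤ) * ζ ^ (500 * r * (r + 1) - 2 : ℤ) := by
            rw [w_mul h1]; congr 1; ring
        _ ≤ _ := mul_le_mul_of_nonneg_left hlam2 (w_pos h1 _).le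
    have hQi : (Q.card : ℝ)⁻¹ ≤ ζ ^ (-(500 * r - 16 - 1) : ℤ) := by
      rw [← w_inv]
      exact inv_anti₀ (w_pos h1 _) hQc
    have hYr : (2 * Y : ℝ) ^ (r + 3) ≤ ζ ^ ((500 * r - 16) * (r + 3) : ℤ) := by
      calc (2 * Y : ℝ) ^ (r + 3) ≤ (ζ ^ (500 * r - 16 : ℤ)) ^ (r + 3) :=
            pow_le_pow_left₀ (by positivity) hY2 _
        _ = _ := by rw [w_pow]; push_cast; rfl
    have hpre : C1 / (Q.card : ℝ) ^ 2 * (2 * Y : ℝ) ^ (r + 3) ≤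
        ζ ^ (500 * r * (r + 1) - 16 * r - 13 : ℤ) := by
      calc C1 / (Q.card : ℝ) ^ 2 * (2 * Y : ℝ) ^ (r + 3) =
            C1 * ((Q.card : ℝ)⁻¹ ^ 2 * (2 * Y : ℝ) ^ (r + 3)) := by
            rw [inv_pow]; ring
        _ ≤ C1 * ((ζ ^ (-(500 * r - 16 - 1) : ℤ)) ^ 2 * ζ ^ ((500 * r - 16) * (r + 3) : ℤ)) := by
            refine mul_le_mul_of_nonneg_left ?_ (zero_le_one.trans hC1)
            exact mul_le_mul (pow_le_pow_left₀ (inv_nonneg.2 (Nat.cast_nonneg _)) hQi 2) hYr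
              (pow_nonneg (mul_nonneg (by norm_num) (Nat.cast_nonneg _)) _)
              (pow_nonneg (w_pos h1 _).le 2)
        _ = C1 * ζ ^ (-(500 * r - 16 - 1) * (2 : ℕ) + (500 * r - 16) * (r + 3) : ℤ) := by
            rw [w_pow, w_mul h1]
        _ ≤ _ := cw_le h1 hζ3 (by push_cast; nlinarith)
    have hα : C1 / (Q.card : ℝ) + C1 / (Q.card : ℝ) ^ 2 * (2 * Y : ℝ) ^ (r + 3) * H * ρ ≤
        ζ ^ (-2 : ℤ) / 4 := by
      have e1 : C1 / (Q.card : ℝ) ≤ ζ ^ (-3 : ℤ) := by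
        calc C1 / (Q.card : ℝ) = C1 * (Q.card : ℝ)⁻¹ := div_eq_mul_inv _ _
          _ ≤ C1 * ζ ^ (-(500 * r - 16 - 1) : ℤ) := by gcongr
          _ ≤ _ := cw_le h1 hζ3 (by linarith)
      have e2 : C1 / (Q.card : ℝ) ^ 2 * (2 * Y : ℝ) ^ (r + 3) * H * ρ ≤ ζ ^ (-3 : ℤ) := by
        calc C1 / (Q.card : ℝ) ^ 2 * (2 * Y : ℝ) ^ (r + 3) * H * ρ ≤
              ζ ^ (500 * r * (r + 1) - 16 * r - 13 : ℤ) * ζ ^ (36 : ℤ) *
                ζ ^ (6 - 500 * r * (r + 1) : ℤ) := by gcongr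
          _ = ζ ^ (500 * r * (r + 1) - 16 * r - 13 + 36 + (6 - 500 * r * (r + 1)) : ℤ) := by
              rw [w_mul h1, w_mul h1]
          _ ≤ _ := w_le h1 (by linarith)
      have e3 : 8 * ζ ^ (-3 : ℤ) ≤ ζ ^ (-2 : ℤ) := cw_le h1 (by linarith) (by norm_num)
      linarith
    have hβ : C1 / (Q.card : ℝ) ^ 2 * (2 * Y : ℝ) ^ (r + 3) * (H : ℝ) ^ (3 * r) * ρ *
        ζ ^ (1500 * r + 151 : ℤ) / (J : ℝ) ^ 2 / lam ^ 2 * lam ^ 2 ≤ (ζ ^ (-2 : ℤ)) ^ 2 / 4 := by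
      have e1 : (H : ℝ) ^ (3 * r) ≤ ζ ^ (108 * r : ℤ) := by
        calc (H : ℝ) ^ (3 * r) ≤ (ζ ^ (36 : ℤ)) ^ (3 * r) :=
              pow_le_pow_left₀ (by positivity) hH2 _
          _ = ζ ^ (108 * r : ℤ) := by rw [w_pow]; congr 1; push_cast; ring
      have e2 : ((J : ℝ) ^ 2)⁻¹ ≤ ζ ^ (-(963 * r - 36) * (2 : ℕ) : ℤ) := by
        rw [← w_pow, ← w_inv, inv_pow]
        exact inv_anti₀ (by have := w_pos h1 (963 * r - 36 : ℤ); positivity)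
          (pow_le_pow_left₀ (w_pos h1 _).le hJ1 2)
      have e3 : C1 / (Q.card : ℝ) ^ 2 * (2 * Y : ℝ) ^ (r + 3) * (H : ℝ) ^ (3 * r) * ρ *
          ζ ^ (1500 * r + 151 : ℤ) / (J : ℝ) ^ 2 / lam ^ 2 * lam ^ 2 =
          C1 / (Q.card : ℝ) ^ 2 * (2 * Y : ℝ) ^ (r + 3) * (H : ℝ) ^ (3 * r) * ρ *
          ζ ^ (1500 * r + 151 : ℤ) * ((J : ℝ) ^ 2)⁻¹ := by
        rw [div_mul_cancel₀ _ hlam2pos.ne', div_eq_mul_inv]
      rw [e3]
      calc C1 / (Q.card : ℝ) ^ 2 * (2 * Y : ℝ) ^ (r + 3) * (H : ℝ) ^ (3 * r) * ρ *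
            ζ ^ (1500 * r + 151 : ℤ) * ((J : ℝ) ^ 2)⁻¹ ≤
            ζ ^ (500 * r * (r + 1) - 16 * r - 13 : ℤ) * ζ ^ (108 * r : ℤ) *
              ζ ^ (6 - 500 * r * (r + 1) : ℤ) * ζ ^ (1500 * r + 151 : ℤ) *
              ζ ^ (-(963 * r - 36) * (2 : ℕ) : ℤ) := by gcongr
        _ = ζ ^ (500 * r * (r + 1) - 16 * r - 13 + 108 * r + (6 - 500 * r * (r + 1)) +
              (1500 * r + 151) + -(963 * r - 36) * (2 : ℕ) : ℤ) := by
            rw [w_mul h1, w_mul h1, w_mul h1, w_mul h1]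
        _ ≤ ζ ^ (-5 : ℤ) := w_le h1 (by push_cast; linarith)
        _ ≤ (ζ ^ (-2 : ℤ)) ^ 2 / 4 := by
            rw [w_pow, le_div_iff₀ (by norm_num), mul_comm]
            exact cw_le h1 (by linarith) (by norm_num)
    have hY1' : 2 ≤ Y := by omega
    have hY3' : 3 ≤ Y := by omega
    have hbA1 : (b + N) ^ 2 < A := lt_of_le_of_lt (by nlinarith) hbA16
    have hB' := hB
    rw [hVd] at hB'
    exact solve (lam ^ 2) (mu A r W1) _ _ (ζ ^ (-2 : ℤ)) hlam2pos (mu_nonneg A r W1) (w_pos h1 _)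
      (hmain A N b H J Y Q a W1 lam ρ (ζ ^ (1500 * r + 151 : ℤ)) hN1 h4N
        hbA1 hH0 hJ0 hJN hY1' hdiv hHJ hQ hQ0 hY3' hQI
        hND hτ ha hlam hW1lam hρ hρ0 hB') hα hβ
  rw [hsum, mul_add]
  calc lam ^ 2 * mu A r W1 + lam ^ 2 * mu A r W2 ≤ 2 * ζ ^ (-2 : ℤ) := by linarith
    _ ≤ _ := cw_le h1 (by linarith) (by norm_num)

/-- **The critical level.** -/
theorem crit_proof (r : ℕ) (hr : 2 ≤ r) : ∃ c : ℝ, 0 < c ∧ ∃ C : ℝ, 0 < C ∧ ∀ N : ℕ, 1 ≤ N →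
    ∀ lam : ℝ, (N : ℝ) ^ (((r : ℝ) + 1) / 4 - c) ≤ lam →
    LevB r N lam (C * (N : ℝ) ^ (-c) * lam ^ (-2 : ℝ)) := by
  obtain ⟨Z, hZ1, hcore⟩ := crit_core r hr
  have hrr : (0 : ℝ) < r := by
    have : (2 : ℝ) ≤ r := by exact_mod_cast hr
    linarith
  obtain ⟨c, hc⟩ : ∃ c : ℝ, c = 1 / (1000 * (r : ℝ)) := ⟨_, rfl⟩
  have hc0 : 0 < c := by rw [hc]; positivity
  obtain ⟨N₀, hN₀⟩ : ∃ N₀ : ℕ, N₀ = ⌈Z ^ (1000 * r)⌉₊ := ⟨_, rfl⟩
  refine ⟨c, hc0, max 1 ((N₀ : ℝ) ^ c), lt_of_lt_of_le one_pos (le_max_left _ _), ?_⟩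
  intro N hN lam hlam b A _ hb hA a ha
  have hNr : (1 : ℝ) ≤ N := by exact_mod_cast hN
  have hN0 : (0 : ℝ) < N := by linarith
  have hlam0 : 0 < lam := (Real.rpow_pos_of_pos hN0 _).trans_le hlam
  have hl2 : lam ^ (-2 : ℝ) = (lam ^ 2)⁻¹ := by
    rw [Real.rpow_neg hlam0.le]
    norm_num
  have hlam2 : 0 < lam ^ 2 := by positivity
  set W := lev A r (Icc (b + 1) (b + N)) N a lam with hW
  suffices h : lam ^ 2 * mu A r W ≤ max 1 ((N₀ : ℝ) ^ c) * (N : ℝ) ^ (-c) by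
    rw [hl2, ← div_eq_mul_inv, le_div_iff₀ hlam2]
    linarith
  by_cases hbig : N₀ ≤ N
  · set ζ : ℝ := (N : ℝ) ^ (1 / (1000 * (r : ℝ))) with hζ
    have hζN : (N : ℝ) = ζ ^ (1000 * r : ℤ) := by
      rw [hζ]
      have e1 : ((N : ℝ) ^ (1 / (1000 * (r : ℝ)))) ^ (1000 * r : ℤ) =
          ((N : ℝ) ^ (1 / (1000 * (r : ℝ)))) ^ (((1000 * r : ℕ)) : ℝ) := by
        rw [Real.rpow_natCast, ← zpow_natCast]
        congr 1
      rw [e1, ← Real.rpow_mul hN0.le]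
      push_cast
      rw [one_div, inv_mul_cancel₀ (by positivity), Real.rpow_one]
    have hZζ : Z ≤ ζ := by
      have e1 : Z ^ (1000 * r) ≤ (N : ℝ) := by
        have e2 : Z ^ (1000 * r) ≤ (N₀ : ℝ) := by rw [hN₀]; exact Nat.le_ceil _
        exact e2.trans (by exact_mod_cast hbig)
      have e3 : Z = (Z ^ (1000 * r)) ^ (1 / (1000 * (r : ℝ))) := by
        rw [← Real.rpow_natCast, ← Real.rpow_mul (by linarith)]
        push_cast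
        rw [mul_one_div_cancel (by positivity), Real.rpow_one]
      rw [e3, hζ]
      exact Real.rpow_le_rpow (by positivity) e1 (by positivity)
    have h0ζ : 0 < ζ := Real.rpow_pos_of_pos hN0 _
    have hlz : ζ ^ (500 * r * (r + 1) - 2 : ℤ) ≤ lam ^ 2 := by
      have e1 : ζ ^ (500 * r * (r + 1) - 2 : ℤ) = ((N : ℝ) ^ (((r : ℝ) + 1) / 4 - c)) ^ 2 := by
        rw [← Real.rpow_intCast, hζ, ← Real.rpow_natCast, ← Real.rpow_mul hN0.le,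
          ← Real.rpow_mul hN0.le]
        congr 1
        rw [hc]
        push_cast
        field_simp
        ring
      rw [e1]
      exact pow_le_pow_left₀ (Real.rpow_nonneg hN0.le _) hlam 2
    have h1 := hcore ζ N b A hZζ hζN rfl hb hA a ha lam hlam0 hlz
    have e2 : ζ ^ (-1 : ℤ) = (N : ℝ) ^ (-c) := by
      rw [zpow_neg_one, hζ, ← Real.rpow_neg hN0.le, hc]
    rw [e2] at h1
    refine h1.trans ?_
    have e3 : 0 ≤ (N : ℝ) ^ (-c) := Real.rpow_nonneg hN0.le _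
    nlinarith [le_max_left (1 : ℝ) ((N₀ : ℝ) ^ c)]
  · push Not at hbig
    have h1 := mu_lev_le A r N b hN hb hA a ha lam hlam0
    refine h1.trans ?_
    have e1 : (N : ℝ) ^ c ≤ (N₀ : ℝ) ^ c :=
      Real.rpow_le_rpow hN0.le (by exact_mod_cast hbig.le) hc0.le
    calc (1 : ℝ) = (N : ℝ) ^ c * (N : ℝ) ^ (-c) := by
          rw [← Real.rpow_add hN0]; simp
      _ ≤ max 1 ((N₀ : ℝ) ^ c) * (N : ℝ) ^ (-c) := by
          refine mul_le_mul_of_nonneg_right (e1.trans (le_max_right _ _)) ?_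
          exact Real.rpow_nonneg hN0.le _

end Stx
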