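import Pool.Agent.Helper65.Stx.L4
import Pool.Agent.Helper92.Stx.USq
import Pool.Agent.Helper80.Stx.Pairs
import Pool.Agent.Helper13.Stx.PdSum
import Pool.Agent.Helper70.Stx.Coll
import Pool.Agent.Helper89.Stz.CLTools

set_option autoImplicit false

namespace Stx

open Finset Stz

theorem mem_sc (A r : ℕ) [NeZero A] (W : Finset (ZMod A × (Fin r → ZMod A))) (z : ZMod A)
    (y : Fin r → ZMod A) : y ∈ sec A r W z ↔ (z, y) ∈ W := by
  classical
  unfold sec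
  simp

theorem card_eq_sec (A r : ℕ) [NeZero A] (W : Finset (ZMod A × (Fin r → ZMod A))) :
    W.card = ∑ z : ZMod A, (sec A r W z).card := by
  classical
  have h1 : W = (univ : Finset (ZMod A)).biUnion fun z => (sec A r W z).image fun y => (z, y) := by
    ext ⟨z, y⟩
    simp only [mem_biUnion, mem_univ, true_and, mem_image, mem_sc, Prod.mk.injEq]
    constructor
    · intro h
      exact ⟨z, y, h, rfl, rfl⟩
    · rintro ⟨z', y', h, rfl, rfl⟩
      exact h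
  conv_lhs => rw [h1]
  rw [card_biUnion]
  · refine sum_congr rfl fun z _ => ?_
    exact card_image_of_injective _ fun y y' h => (Prod.mk.injEq _ _ _ _ ▸ h : _ ∧ _).2
  · intro z _ z' _ hzz
    refine disjoint_left.2 ?_
    rintro ⟨u, v⟩ h h'
    simp only [mem_image, Prod.mk.injEq] at h h'
    obtain ⟨_, _, h2, _⟩ := h
    obtain ⟨_, _, h3, _⟩ := h'
    exact hzz (h2.trans h3.symm)

theorem mu_eq (A r : ℕ) [NeZero A] (W : Finset (ZMod A × (Fin r → ZMod A))) :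
    mu A r W = (A : ℝ)⁻¹ * ∑ z : ZMod A, ((A : ℝ)⁻¹) ^ r * (sec A r W z).card := by
  have hA : (A : ℝ) ≠ 0 := Nat.cast_ne_zero.mpr (NeZero.ne A)
  unfold mu
  rw [card_eq_sec, ← mul_sum]
  push_cast
  rw [pow_succ, div_eq_mul_inv, mul_inv, ← inv_pow]
  ring

theorem mu_nonneg (A r : ℕ) (W : Finset (ZMod A × (Fin r → ZMod A))) : 0 ≤ mu A r W := by
  unfold mu; positivity

/-- mass in space -/
noncomputable def gg (A r : ℕ) [NeZero A] (I : Finset ℕ) (N : ℕ) (a : ℕ → (Fin r → ℕ) → ℂ)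
    (z : ZMod A) : ℝ := ((A : ℝ)⁻¹) ^ r * ∑ y, ‖F A r I N a z y‖ ^ 2

theorem gg_nonneg (A r : ℕ) [NeZero A] (I : Finset ℕ) (N : ℕ) (a : ℕ → (Fin r → ℕ) → ℂ)
    (z : ZMod A) : 0 ≤ gg A r I N a z := by unfold gg; positivity

theorem sec_le (A r : ℕ) [NeZero A] (I : Finset ℕ) (N : ℕ) (a : ℕ → (Fin r → ℕ) → ℂ)
    (W : Finset (ZMod A × (Fin r → ZMod A))) (lam : ℝ) (hlam : 0 ≤ lam)
    (hW : ∀ w ∈ W, lam ≤ ‖F A r I N a w.1 w.2‖) (z : ZMod A) :
    lam ^ 2 * (((A : ℝ)⁻¹) ^ r * (sec A r W z).card) ≤ gg A r I N a z := by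
  unfold gg
  have h1 : lam ^ 2 * ((sec A r W z).card : ℝ) ≤ ∑ y, ‖F A r I N a z y‖ ^ 2 := by
    calc lam ^ 2 * ((sec A r W z).card : ℝ) = ∑ _y ∈ sec A r W z, lam ^ 2 := by
          rw [sum_const, nsmul_eq_mul]; ring
      _ ≤ ∑ y ∈ sec A r W z, ‖F A r I N a z y‖ ^ 2 := by
          refine sum_le_sum fun y hy => ?_
          exact pow_le_pow_left₀ hlam (hW (z, y) ((mem_sc A r W z y).1 hy)) 2
      _ ≤ ∑ y, ‖F A r I N a z y‖ ^ 2 :=
          sum_le_sum_of_subset_of_nonneg (subset_univ _) fun _ _ _ => by positivity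
  calc lam ^ 2 * (((A : ℝ)⁻¹) ^ r * (sec A r W z).card) =
        ((A : ℝ)⁻¹) ^ r * (lam ^ 2 * ((sec A r W z).card : ℝ)) := by ring
    _ ≤ _ := mul_le_mul_of_nonneg_left h1 (by positivity)

/-- times of large mass carry little of the level set -/
theorem mu_large (A r : ℕ) [NeZero A] (I : Finset ℕ) (N : ℕ) (a : ℕ → (Fin r → ℕ) → ℂ)
    (W : Finset (ZMod A × (Fin r → ZMod A))) (lam : ℝ) (hlam : 0 ≤ lam)
    (hW : ∀ w ∈ W, lam ≤ ‖F A r I N a w.1 w.2‖) (G M : ℝ) (hG : 0 < G)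
    (hM : (A : ℝ)⁻¹ * ∑ z : ZMod A, gg A r I N a z ^ 2 ≤ M)
    (hWG : ∀ w ∈ W, G ≤ gg A r I N a w.1) :
    lam ^ 2 * mu A r W ≤ M / G := by
  rw [mu_eq, le_div_iff₀ hG]
  refine le_trans ?_ hM
  have hA : (0 : ℝ) ≤ (A : ℝ)⁻¹ := by positivity
  calc lam ^ 2 * ((A : ℝ)⁻¹ * ∑ z : ZMod A, ((A : ℝ)⁻¹) ^ r * (sec A r W z).card) * G
      = (A : ℝ)⁻¹ * ∑ z : ZMod A, lam ^ 2 * (((A : ℝ)⁻¹) ^ r * (sec A r W z).card) * G := by
        simp only [mul_sum, sum_mul]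
        refine sum_congr rfl fun z _ => ?_
        ring
    _ ≤ (A : ℝ)⁻¹ * ∑ z : ZMod A, gg A r I N a z ^ 2 := by
        refine mul_le_mul_of_nonneg_left (sum_le_sum fun z _ => ?_) hA
        have h1 := sec_le A r I N a W lam hlam hW z
        have h2 := gg_nonneg A r I N a z
        by_cases h : (sec A r W z).Nonempty
        · obtain ⟨y, hy⟩ := h
          have h3 := hWG (z, y) ((mem_sc A r W z y).1 hy)
          simp only at h3
          calc lam ^ 2 * (((A : ℝ)⁻¹) ^ r * (sec A r W z).card) * G ≤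
                gg A r I N a z * gg A r I N a z :=
                mul_le_mul h1 h3 hG.le h2
            _ = _ := by ring
        · rw [not_nonempty_iff_eq_empty.1 h]
          simp only [card_empty, Nat.cast_zero, mul_zero, zero_mul]
          positivity

/-- the interpolation `U ^ (3/2) ≤ s ^ 3 + U ^ 2 / s` -/
theorem rpow_three_half (u s : ℝ) (hu : 0 ≤ u) (hs : 0 < s) :
    u ^ (3 / 2 : ℝ) ≤ s ^ 3 + u ^ 2 / s := by
  set v : ℝ := Real.sqrt u with hv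
  have hv0 : 0 ≤ v := Real.sqrt_nonneg _
  have hu2 : u = v ^ 2 := (Real.sq_sqrt hu).symm
  have h1 : u ^ (3 / 2 : ℝ) = v ^ 3 := by
    rw [hv, Real.sqrt_eq_rpow, ← Real.rpow_natCast, ← Real.rpow_mul hu]
    norm_num
  rw [h1, hu2]
  by_cases h : v ≤ s
  · have h2 : v ^ 3 ≤ s ^ 3 := pow_le_pow_left₀ hv0 h 3
    have h3 : 0 ≤ (v ^ 2) ^ 2 / s := by positivity
    linarith
  · push Not at h
    have h2 : v ^ 3 ≤ (v ^ 2) ^ 2 / s := by
      rw [le_div_iff₀ hs]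
      have h4 : 0 ≤ v ^ 3 := by positivity
      calc v ^ 3 * s ≤ v ^ 3 * v := mul_le_mul_of_nonneg_left h.le h4
        _ = (v ^ 2) ^ 2 := by ring
    have h3 : 0 ≤ s ^ 3 := by positivity
    linarith

theorem U_nonneg (A V L : ℕ) (u : ZMod A) : 0 ≤ U A V L u := by
  unfold U
  refine sum_nonneg fun v _ => ?_
  unfold mn
  have : (0 : ℝ) ≤ max (1 / (L : ℝ)) (2 * nrm A ((v : ZMod A) * u)) :=
    le_max_of_le_left (by positivity)
  positivity

theorem U_three_half (A V L : ℕ) [NeZero A] (s M : ℝ) (hs : 0 < s)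
    (hM : (A : ℝ)⁻¹ * ∑ u : ZMod A, U A V L u ^ 2 ≤ M) :
    (A : ℝ)⁻¹ * ∑ u : ZMod A, U A V L u ^ (3 / 2 : ℝ) ≤ s ^ 3 + M / s := by
  have hA : (0 : ℝ) < A := Nat.cast_pos.mpr (Nat.pos_of_ne_zero (NeZero.ne A))
  calc (A : ℝ)⁻¹ * ∑ u : ZMod A, U A V L u ^ (3 / 2 : ℝ)
      ≤ (A : ℝ)⁻¹ * ∑ u : ZMod A, (s ^ 3 + U A V L u ^ 2 / s) := by
        refine mul_le_mul_of_nonneg_left (sum_le_sum fun u _ => ?_) (by positivity)
        exact rpow_three_half _ _ (U_nonneg A V L u) hs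
    _ = s ^ 3 + ((A : ℝ)⁻¹ * ∑ u : ZMod A, U A V L u ^ 2) / s := by
        rw [sum_add_distrib, sum_const, card_univ, ZMod.card, nsmul_eq_mul, mul_add,
          ← sum_div, mul_div_assoc]
        congr 1
        field_simp
    _ ≤ _ := by gcongr

end Stx
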