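import Pool.Agent.Helper89.Stx.Crit1

set_option autoImplicit false

namespace Stx

open Finset Stz

/-- from `X² ≤ …` to the bound -/
theorem solve (L w α β κ : ℝ) (hL : 0 < L) (hw : 0 ≤ w) (hκ : 0 < κ)
    (h : L * w ^ 2 ≤ α * w + β) (hα : α ≤ κ / 4) (hβ : β * L ≤ κ ^ 2 / 4) : L * w ≤ κ := by
  by_contra hcon
  push Not at hcon
  have hw0 : 0 < w := by
    rcases hw.lt_or_eq with h1 | h1
    · exact h1
    · rw [← h1] at hcon; linarith
  have h1 : L * (L * w ^ 2) ≤ L * (α * w + β) := mul_le_mul_of_nonneg_left h hL.le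
  have h2 : (L * w) ^ 2 ≤ α * (L * w) + β * L := by nlinarith
  have h3 : κ ^ 2 < (L * w) ^ 2 := by nlinarith
  have h4 : κ * (L * w) < (L * w) ^ 2 := by nlinarith
  have h5 : α * (L * w) ≤ κ / 4 * (L * w) := mul_le_mul_of_nonneg_right hα (by positivity)
  nlinarith

/-- The main inequality at the critical level, in terms of counting quantities. -/
theorem main_ineq (r : ℕ) : ∃ C : ℝ, 1 ≤ C ∧ ∀ (A N b H J Y : ℕ) [NeZero A] (Q : Finset ℕ)
    (a : ℕ → (Fin r → ℕ) → ℂ) (W : Finset (ZMod A × (Fin r → ZMod A))) (lam ρ B : ℝ),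
    1 ≤ N → 4 * N < A → (b + N) ^ 2 < A → 1 ≤ H → 1 ≤ J → J ≤ N → 2 ≤ Y →
    (∀ d : ℕ, 1 ≤ d → d ≤ 16 * Y ^ 2 → d ∣ A) →
    8 * (N + 2 * H * J) < A →
    (∀ q ∈ Q, q.Prime ∧ Y ≤ q ∧ q ≤ 2 * Y) → Q.Nonempty → 3 ≤ Y →
    (∀ n ∈ Icc (b + 1) (b + N), 2 * (Q.filter fun q => q ∣ n).card ≤ Q.card) →
    2 * N ≤ (H + 1) * Y ^ 2 → (3 * H : ℝ) ^ r / (Y ^ 2 : ℕ) ≤ 1 / (2 * J) →
    nsq r (Icc (b + 1) (b + N)) N a ≤ 1 → 0 < lam →
    (∀ w ∈ W, lam ≤ ‖F A r (Icc (b + 1) (b + N)) N a w.1 w.2‖) →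
    (∀ z, ((A : ℝ)⁻¹) ^ r * (sec A r W z).card ≤ ρ) → 0 ≤ ρ →
    (A : ℝ)⁻¹ * ∑ u : ZMod A, U A ((4 * r + 2) * H ^ 2 * N) N u ^ (3 / 2 : ℝ) ≤ B →
    lam ^ 2 * mu A r W ^ 2 ≤
      (C / Q.card + C / (Q.card : ℝ) ^ 2 * (2 * Y : ℝ) ^ (r + 3) * H * ρ) * mu A r W +
      C / (Q.card : ℝ) ^ 2 * (2 * Y : ℝ) ^ (r + 3) * (H : ℝ) ^ (3 * r) * ρ * B /
        (J : ℝ) ^ 2 / lam ^ 2 := by
  obtain ⟨C0, hC0, hcs⟩ := coll_sum r
  refine ⟨2 ^ (r + 2) + 8 * C0 + 8 * C0 * 9 ^ r * 10, ?_, ?_⟩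
  · have h1 : (1 : ℝ) ≤ 2 ^ (r + 2) := one_le_pow₀ (by norm_num)
    have h2 : 0 ≤ 8 * C0 := by positivity
    have h3 : 0 ≤ 8 * C0 * 9 ^ r * 10 := by positivity
    linarith
  intro A N b H J Y _ Q a W lam ρ B hN hNA hbA hH hJ hJN hY hdiv hHJ hQ hQ0 hY3 hQI hND hτ ha hlam
    hW hρ hρ0 hB
  classical
  set C : ℝ := 2 ^ (r + 2) + 8 * C0 + 8 * C0 * 9 ^ r * 10 with hC
  set μ := mu A r W with hμ
  have hμ0 : 0 ≤ μ := mu_nonneg A r W
  set D : ℕ := Y ^ 2 with hD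
  have hY0 : (0 : ℝ) < Y := by exact_mod_cast (by omega : 0 < Y)
  have hq1 : (0 : ℝ) < Q.card := by exact_mod_cast hQ0.card_pos
  obtain ⟨f, hf1, hfW, hE⟩ := En_ge A r N (Icc (b + 1) (b + N)) a ha W lam hlam.le hW
  have hI : ∀ n ∈ Icc (b + 1) (b + N), 1 ≤ n ∧ n ^ 2 < A := by
    intro n hn
    rw [mem_Icc] at hn
    refine ⟨by omega, lt_of_le_of_lt (Nat.pow_le_pow_left hn.2 2) hbA⟩
  have hQ' : ∀ q ∈ Q, q.Prime ∧ q ≠ 2 ∧ q ∣ A := by
    intro q hq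
    obtain ⟨h1, h2, h3⟩ := hQ q hq
    refine ⟨h1, by omega, hdiv q h1.one_le ?_⟩
    nlinarith
  have h1 := coll A r N hN hNA (Icc (b + 1) (b + N)) hI Q hQ' hQ0 hQI W f hf1 hfW
  have hD1 : 1 ≤ D := by rw [hD]; exact Nat.one_le_pow _ _ (by omega)
  have hCol0 : ∀ d : ℕ, 1 ≤ d → d ≤ 16 * D → 0 ≤ Coll A r N d W := by
    intro d hd1 hd2
    unfold Coll
    refine mul_nonneg (by positivity) (sum_nonneg fun z _ => mul_nonneg (by positivity) ?_)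
    exact sum_nonneg fun y _ => sum_nonneg fun y' _ =>
      Pd_nonneg A r N d hN hd1 (hdiv d hd1 hd2) _
  -- the sum over pairs is at most twice the sum over all denominators
  have h2 : ∑ p ∈ Q.offDiag, (Real.sqrt (p.1 * p.2)) ^ (r + 1) * Coll A r N (p.1 * p.2) W ≤
      (2 * Y : ℝ) ^ (r + 1) * (2 * ∑ d ∈ Ioc D (16 * D), Coll A r N d W) := by
    have hmem : ∀ p ∈ Q.offDiag, p.1 * p.2 ∈ Ioc D (16 * D) ∧ p.1 * p.2 ≤ 4 * Y ^ 2 := by
      intro p hp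
      rw [mem_offDiag] at hp
      obtain ⟨h21, h22, h23⟩ := hp
      obtain ⟨_, h25, h26⟩ := hQ _ h21
      obtain ⟨_, h28, h29⟩ := hQ _ h22
      have h210 : p.1 * p.2 ≤ 4 * Y ^ 2 := by nlinarith
      refine ⟨?_, h210⟩
      rw [mem_Ioc, hD]
      constructor
      · rcases Nat.lt_or_gt_of_ne h23 with h | h
        · nlinarith
        · nlinarith
      · nlinarith
    calc ∑ p ∈ Q.offDiag, (Real.sqrt (p.1 * p.2)) ^ (r + 1) * Coll A r N (p.1 * p.2) W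
        ≤ ∑ p ∈ Q.offDiag, (2 * Y : ℝ) ^ (r + 1) * Coll A r N (p.1 * p.2) W := by
          refine sum_le_sum fun p hp => ?_
          obtain ⟨h21, h22⟩ := hmem p hp
          have h23 := mem_Ioc.1 h21
          refine mul_le_mul_of_nonneg_right ?_ (hCol0 _ (by omega) h23.2)
          refine pow_le_pow_left₀ (Real.sqrt_nonneg _) ?_ _
          rw [Real.sqrt_le_left (by positivity)]
          have h24 : ((p.1 * p.2 : ℕ) : ℝ) ≤ ((4 * Y ^ 2 : ℕ) : ℝ) := by exact_mod_cast h22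
          push_cast at h24
          nlinarith
      _ = (2 * Y : ℝ) ^ (r + 1) * ∑ p ∈ Q.offDiag, Coll A r N (p.1 * p.2) W := by
          rw [mul_sum]
      _ ≤ _ := by
          refine mul_le_mul_of_nonneg_left ?_ (by positivity)
          have hmap : ∀ p ∈ Q.offDiag, p.1 * p.2 ∈ Ioc D (16 * D) := fun p hp => (hmem p hp).1
          rw [← sum_fiberwise_of_maps_to hmap, mul_sum]
          refine sum_le_sum fun d hd => ?_
          have hd' := mem_Ioc.1 hd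
          have hfib : ((Q.offDiag).filter fun p : ℕ × ℕ => p.1 * p.2 = d).card ≤ 2 := by
            by_contra hcon
            push Not at hcon
            obtain ⟨x, hx, y, hy, z, hz, hxy, hxz, hyz⟩ := two_lt_card.1 hcon
            simp only [mem_filter, mem_offDiag] at hx hy hz
            have key : ∀ u v : ℕ × ℕ, (u.1 ∈ Q ∧ u.2 ∈ Q ∧ u.1 ≠ u.2) ∧ u.1 * u.2 = d →
                (v.1 ∈ Q ∧ v.2 ∈ Q ∧ v.1 ≠ v.2) ∧ v.1 * v.2 = d → v = u ∨ v = (u.2, u.1) := by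
              rintro ⟨u1, u2⟩ ⟨v1, v2⟩ ⟨⟨h1, h2, h3⟩, h4⟩ ⟨⟨h5, h6, h7⟩, h8⟩
              simp only at h1 h2 h3 h4 h5 h6 h7 h8
              have p1 := (hQ _ h1).1
              have p2 := (hQ _ h2).1
              have p5 := (hQ _ h5).1
              have p6 := (hQ _ h6).1
              have h9 : v1 ∣ u1 * u2 := by rw [h4, ← h8]; exact dvd_mul_right _ _
              rcases (Nat.Prime.dvd_mul p5).1 h9 with h | h
              · left
                have h10 : v1 = u1 := (Nat.prime_dvd_prime_iff_eq p5 p1).1 h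
                subst h10
                have h11 : v1 * v2 = v1 * u2 := by rw [h8, h4]
                have h12 := Nat.eq_of_mul_eq_mul_left p5.pos h11
                rw [h12]
              · right
                have h10 : v1 = u2 := (Nat.prime_dvd_prime_iff_eq p5 p2).1 h
                subst h10
                have h11 : v1 * v2 = v1 * u1 := by rw [h8, ← h4, mul_comm]
                have h12 := Nat.eq_of_mul_eq_mul_left p5.pos h11
                rw [h12]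
            rcases key x y hx hy with h | h
            · exact hxy h.symm
            · rcases key x z hx hz with h' | h'
              · exact hxz h'.symm
              · exact hyz (h.trans h'.symm)
          calc ∑ p ∈ (Q.offDiag).filter (fun p : ℕ × ℕ => p.1 * p.2 = d), Coll A r N (p.1 * p.2) W
              = ∑ p ∈ (Q.offDiag).filter (fun p : ℕ × ℕ => p.1 * p.2 = d), Coll A r N d W := by
                refine sum_congr rfl fun p hp => ?_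
                rw [(mem_filter.1 hp).2]
            _ = (((Q.offDiag).filter fun p : ℕ × ℕ => p.1 * p.2 = d).card : ℝ) *
                  Coll A r N d W := by rw [sum_const, nsmul_eq_mul]
            _ ≤ 2 * Coll A r N d W := by
                refine mul_le_mul_of_nonneg_right (by exact_mod_cast hfib)
                  (hCol0 d (by omega) hd'.2)
  have h3 := hcs A N D H hN hD1 hH (by rw [hD]; exact hND) W
  -- slices
  have h4 : (A : ℝ)⁻¹ * ∑ z : ZMod A, (((A : ℝ)⁻¹) ^ r * ((sec A r W z).card : ℝ)) ^ 2 ≤ ρ * μ := by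
    rw [hμ, mu_eq, mul_left_comm, mul_sum (s := univ) (a := ρ)]
    refine mul_le_mul_of_nonneg_left (sum_le_sum fun z _ => ?_) (by positivity)
    rw [pow_two]
    exact mul_le_mul_of_nonneg_right (hρ z) (by positivity)
  -- pairs
  have hBnn : 0 ≤ B := by
    refine le_trans (mul_nonneg (by positivity) (sum_nonneg fun u _ => ?_)) hB
    exact Real.rpow_nonneg (U_nonneg _ _ _ _) _
  have h5 : ∀ k ∈ (BZ r H ×ˢ BZ r H).filter
      (fun k : (Fin r → ℤ) × (Fin r → ℤ) => Ind k.1 k.2),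
      Pr A r W k.1 k.2 ((3 * H : ℝ) ^ r / D) ≤ 10 * ρ * B / (J : ℝ) ^ 2 / lam ^ 2 := by
    intro k hk
    rw [mem_filter, mem_product] at hk
    obtain ⟨⟨hk1, hk2⟩, hk3⟩ := hk
    have hkH : ∀ l, |k.1 l| ≤ H ∧ |k.2 l| ≤ H := by
      intro l
      have e1 := Fintype.mem_piFinset.1 hk1 l
      have e2 := Fintype.mem_piFinset.1 hk2 l
      rw [mem_Icc] at e1 e2
      exact ⟨abs_le.2 e1, abs_le.2 e2⟩
    have h51 := pairs A r H J N ((4 * r + 2) * H ^ 2 * N) b hN hJ hJN hH ?_ ?_ hHJ a ha k.1 k.2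
      hk3 hkH W lam hlam.le hW ρ hρ ((3 * H : ℝ) ^ r / D) hτ
    · have h52 : 10 * ρ / (J : ℝ) ^ 2 * ((A : ℝ)⁻¹ *
          ∑ u : ZMod A, U A ((4 * r + 2) * H ^ 2 * N) N u ^ (3 / 2 : ℝ)) ≤
          10 * ρ / (J : ℝ) ^ 2 * B := mul_le_mul_of_nonneg_left hB (by positivity)
      rw [le_div_iff₀ (by positivity)]
      calc Pr A r W k.1 k.2 ((3 * H : ℝ) ^ r / D) * lam ^ 2 =
            lam ^ 2 * Pr A r W k.1 k.2 ((3 * H : ℝ) ^ r / D) := by ring
        _ ≤ _ := h51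
        _ ≤ _ := h52
        _ = _ := by ring
    · calc 4 * r * H ^ 2 * J ≤ 4 * r * H ^ 2 * N := Nat.mul_le_mul_left _ hJN
        _ ≤ _ := by nlinarith [Nat.zero_le (2 * H ^ 2 * N)]
    · have : 1 ≤ H ^ 2 := Nat.one_le_pow _ _ hH
      nlinarith [Nat.zero_le (4 * r * H ^ 2 * N)]
  have hX0 : 0 ≤ 10 * ρ * B / (J : ℝ) ^ 2 / lam ^ 2 := by positivity
  have h6 : ∑ k ∈ (BZ r H ×ˢ BZ r H).filter (fun k : (Fin r → ℤ) × (Fin r → ℤ) => Ind k.1 k.2),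
      Pr A r W k.1 k.2 ((3 * H : ℝ) ^ r / D) ≤
        9 ^ r * (H : ℝ) ^ (2 * r) * (10 * ρ * B / (J : ℝ) ^ 2 / lam ^ 2) := by
    refine (sum_le_sum h5).trans ?_
    rw [sum_const, nsmul_eq_mul]
    refine mul_le_mul_of_nonneg_right ?_ hX0
    have h61 : ((BZ r H ×ˢ BZ r H).filter
        (fun k : (Fin r → ℤ) × (Fin r → ℤ) => Ind k.1 k.2)).card ≤ (3 * H) ^ (2 * r) := by
      refine (card_filter_le _ _).trans ?_
      rw [card_product, Fintype.card_piFinset]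
      simp only [Int.card_Icc, prod_const, card_univ, Fintype.card_fin]
      have h62 : ((H : ℤ) + 1 - -(H : ℤ)).toNat = 2 * H + 1 := by omega
      rw [h62, ← pow_add, ← two_mul]
      exact Nat.pow_le_pow_left (by omega) _
    calc (((BZ r H ×ˢ BZ r H).filter
        (fun k : (Fin r → ℤ) × (Fin r → ℤ) => Ind k.1 k.2)).card : ℝ) ≤
          (((3 * H) ^ (2 * r) : ℕ) : ℝ) := by exact_mod_cast h61
      _ = 9 ^ r * (H : ℝ) ^ (2 * r) := by
          push_cast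
          rw [mul_pow, pow_mul]
          norm_num
  -- everything together
  have h7 : ∑ d ∈ Ioc D (16 * D), Coll A r N d W ≤ C0 * D * (H * (ρ * μ) + (H : ℝ) ^ r *
      (9 ^ r * (H : ℝ) ^ (2 * r) * (10 * ρ * B / (J : ℝ) ^ 2 / lam ^ 2))) := by
    refine h3.trans (mul_le_mul_of_nonneg_left ?_ (by positivity))
    exact add_le_add (mul_le_mul_of_nonneg_left h4 (by positivity))
      (mul_le_mul_of_nonneg_left h6 (by positivity))
  have h8 : 4 / (Q.card : ℝ) ^ 2 * ∑ p ∈ Q.offDiag,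
      (Real.sqrt (p.1 * p.2)) ^ (r + 1) * Coll A r N (p.1 * p.2) W ≤
      4 / (Q.card : ℝ) ^ 2 * ((2 * Y : ℝ) ^ (r + 1) * (2 * (C0 * D * (H * (ρ * μ) + (H : ℝ) ^ r *
      (9 ^ r * (H : ℝ) ^ (2 * r) * (10 * ρ * B / (J : ℝ) ^ 2 / lam ^ 2)))))) := by
    refine mul_le_mul_of_nonneg_left (h2.trans ?_) (by positivity)
    exact mul_le_mul_of_nonneg_left (mul_le_mul_of_nonneg_left h7 (by norm_num)) (by positivity)
  have hDr : (D : ℝ) ≤ (2 * Y : ℝ) ^ 2 := by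
    rw [hD]; push_cast; nlinarith
  have h9 : 4 / (Q.card : ℝ) ^ 2 * ((2 * Y : ℝ) ^ (r + 1) * (2 * (C0 * D * (H * (ρ * μ) +
      (H : ℝ) ^ r * (9 ^ r * (H : ℝ) ^ (2 * r) * (10 * ρ * B / (J : ℝ) ^ 2 / lam ^ 2)))))) ≤
      4 / (Q.card : ℝ) ^ 2 * ((2 * Y : ℝ) ^ (r + 1) * (2 * (C0 * (2 * Y : ℝ) ^ 2 * (H * (ρ * μ) +
      (H : ℝ) ^ r * (9 ^ r * (H : ℝ) ^ (2 * r) * (10 * ρ * B / (J : ℝ) ^ 2 / lam ^ 2)))))) := by
    gcongr
  have hsplit : 4 / (Q.card : ℝ) ^ 2 * ((2 * Y : ℝ) ^ (r + 1) * (2 * (C0 * (2 * Y : ℝ) ^ 2 *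
      (H * (ρ * μ) + (H : ℝ) ^ r * (9 ^ r * (H : ℝ) ^ (2 * r) *
      (10 * ρ * B / (J : ℝ) ^ 2 / lam ^ 2)))))) =
      (8 * C0) / (Q.card : ℝ) ^ 2 * (2 * Y : ℝ) ^ (r + 3) * H * ρ * μ +
      (8 * C0 * 9 ^ r * 10) / (Q.card : ℝ) ^ 2 * (2 * Y : ℝ) ^ (r + 3) * (H : ℝ) ^ (3 * r) * ρ *
        B / (J : ℝ) ^ 2 / lam ^ 2 := by
    rw [show 3 * r = r + 2 * r by ring, pow_add (H : ℝ) r (2 * r),
      show r + 3 = (r + 1) + 2 by ring, pow_add (2 * (Y : ℝ)) (r + 1) 2]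
    ring
  have hCa : 2 ^ (r + 2) ≤ C := by
    have e1 : 0 ≤ 8 * C0 := by positivity
    have e2 : 0 ≤ 8 * C0 * 9 ^ r * 10 := by positivity
    rw [hC]; linarith
  have hCb : 8 * C0 ≤ C := by
    have e1 : (0 : ℝ) ≤ 2 ^ (r + 2) := by positivity
    have e2 : 0 ≤ 8 * C0 * 9 ^ r * 10 := by positivity
    rw [hC]; linarith
  have hCc : 8 * C0 * 9 ^ r * 10 ≤ C := by
    have e1 : (0 : ℝ) ≤ 2 ^ (r + 2) := by positivity
    have e2 : 0 ≤ 8 * C0 := by positivity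
    rw [hC]; linarith
  calc lam ^ 2 * μ ^ 2 ≤ _ := hE
    _ ≤ _ := h1
    _ ≤ 2 ^ (r + 2) / Q.card * μ +
        ((8 * C0) / (Q.card : ℝ) ^ 2 * (2 * Y : ℝ) ^ (r + 3) * H * ρ * μ +
      (8 * C0 * 9 ^ r * 10) / (Q.card : ℝ) ^ 2 * (2 * Y : ℝ) ^ (r + 3) * (H : ℝ) ^ (3 * r) * ρ *
        B / (J : ℝ) ^ 2 / lam ^ 2) := by
        rw [← hsplit]
        exact add_le_add le_rfl (h8.trans h9)
    _ ≤ C / Q.card * μ + (C / (Q.card : ℝ) ^ 2 * (2 * Y : ℝ) ^ (r + 3) * H * ρ * μ +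
      C / (Q.card : ℝ) ^ 2 * (2 * Y : ℝ) ^ (r + 3) * (H : ℝ) ^ (3 * r) * ρ *
        B / (J : ℝ) ^ 2 / lam ^ 2) := by
        gcongr
    _ = _ := by ring

end Stx
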